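import Mathlib

set_option autoImplicit false

open Representation

namespace Pool.Agent.Q109.SP

section defs

/-- The ring `ℤ_(p)`: the rational numbers with denominator prime to `p`. -/
def ZLoc (p : ℕ) [hp : Fact p.Prime] : Subring ℚ where
  carrier := {q | ¬ p ∣ q.den}
  mul_mem' := fun {a b} ha hb h => by
    rcases hp.out.dvd_mul.1 (h.trans (Rat.mul_den_dvd a b)) with h | h
    exacts [ha h, hb h]
  one_mem' := fun h => hp.out.one_lt.ne' (Nat.dvd_one.1 h)
  add_mem' := fun {a b} ha hb h => by
    rcases hp.out.dvd_mul.1 (h.trans (Rat.add_den_dvd a b)) with h | h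
    exacts [ha h, hb h]
  zero_mem' := fun h => hp.out.one_lt.ne' (Nat.dvd_one.1 h)
  neg_mem' := fun {a} ha => by
    change ¬ p ∣ (-a).den
    rwa [Rat.neg_den]

/-- A ring `R` is semiperfect if `R / J(R)` is semisimple and idempotents lift modulo the Jacobson
radical `J(R)`. -/
def IsSemiperfect (R : Type*) [Ring R] : Prop :=
  IsSemisimpleRing (R ⧸ Ring.jacobson R) ∧
    ∀ e : R ⧸ Ring.jacobson R, IsIdempotentElem e →
      ∃ f : R, IsIdempotentElem f ∧ Ideal.Quotient.mk (Ring.jacobson R) f = e

/-- A finitely generated `kG`-module, that is, a finite-dimensional representation. -/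
structure FRep (k G : Type) [Field k] [Group G] where
  V : Type
  [grp : AddCommGroup V]
  [mod : Module k V]
  [fin : FiniteDimensional k V]
  ρ : Representation k G V

attribute [instance] FRep.grp FRep.mod FRep.fin

variable {k G : Type} [Field k] [Group G]

/-- There is a short exact sequence `0 → A → B → C → 0`. -/
def IsExactSeq (A B C : FRep k G) : Prop :=
  ∃ (f : A.ρ.IntertwiningMap B.ρ) (g : B.ρ.IntertwiningMap C.ρ),
    Function.Injective f ∧ Function.Surjective g ∧ ∀ b, g b = 0 ↔ ∃ a, f a = b

variable (k G) in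
/-- The relations `[B] - [A] - [C]` of the Grothendieck group. -/
def relations : AddSubgroup (FreeAbelianGroup (FRep k G)) :=
  AddSubgroup.closure {x | ∃ A B C : FRep k G, IsExactSeq A B C ∧
    x = FreeAbelianGroup.of B - FreeAbelianGroup.of A - FreeAbelianGroup.of C}

variable (k G) in
/-- The Grothendieck group `G_0(kG)`. -/
abbrev G0 : Type 1 := FreeAbelianGroup (FRep k G) ⧸ relations k G

/-- The class of a module in `G_0(kG)`. -/
def cls (A : FRep k G) : G0 k G := QuotientAddGroup.mk (FreeAbelianGroup.of A)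

/-- The `ℤ_(p)`-submodule of `V` spanned by the finitely many vectors `e i`. -/
def lattice (p : ℕ) [Fact p.Prime] (V : FRep ℚ G) {n : ℕ} (e : Fin n → V.V) : Set V.V :=
  {x | ∃ c : Fin n → ℚ, (∀ i, c i ∈ ZLoc p) ∧ ∑ i, c i • e i = x}

/-- `π` restricts to a surjective homomorphism `L → W` of `G`-modules with kernel `pL`. -/
def IsReductionMap (p : ℕ) [Fact p.Prime] (V : FRep ℚ G) (W : FRep (ZMod p) G) (L : Set V.V)
    (π : V.V → W.V) : Prop :=
  (∀ x ∈ L, ∀ y ∈ L, π (x + y) = π x + π y) ∧ (∀ w, ∃ x ∈ L, π x = w) ∧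
    (∀ x ∈ L, π x = 0 ↔ ∃ y ∈ L, x = p • y) ∧ ∀ g : G, ∀ x ∈ L, π (V.ρ g x) = W.ρ g (π x)

/-- `W` is isomorphic to `L / pL` for a `ℤ_(p)G`-submodule `L` of `V` which is finitely generated
over `ℤ_(p)` (by vectors `e 0, ..., e (n - 1)`) and spans `V` over `ℚ`. -/
def IsReduction (p : ℕ) [Fact p.Prime] (V : FRep ℚ G) (W : FRep (ZMod p) G) : Prop :=
  ∃ (n : ℕ) (e : Fin n → V.V), Submodule.span ℚ (Set.range e) = ⊤ ∧
    (∀ g : G, ∀ x ∈ lattice p V e, V.ρ g x ∈ lattice p V e) ∧
      ∃ π : V.V → W.V, IsReductionMap p V W (lattice p V e) π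

variable (G) in
/-- The classes of the reductions modulo `p` of the simple `ℚG`-modules. -/
def reductions (p : ℕ) [Fact p.Prime] : Set (G0 (ZMod p) G) :=
  {x | ∃ (V : FRep ℚ G) (W : FRep (ZMod p) G), V.ρ.IsIrreducible ∧ IsReduction p V W ∧ x = cls W}

/-- `P` is not a direct sum of two nonzero submodules. -/
def IsIndecomposable (P : FRep k G) : Prop :=
  ∀ A B : Subrepresentation P.ρ, IsCompl A B → A = ⊥ ∨ B = ⊥

/-- `P` is a projective indecomposable `kG`-module. -/
def IsPIM (P : FRep k G) : Prop :=
  Module.Projective (MonoidAlgebra k G) P.ρ.asModule ∧ Nontrivial P.V ∧ IsIndecomposable P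

variable (G) in
/-- Condition (N): the class of every projective indecomposable `F_p G`-module is a sum, with
non-negative integer coefficients, of classes of reductions of simple `ℚG`-modules. -/
def ConditionN (p : ℕ) [Fact p.Prime] : Prop :=
  ∀ P : FRep (ZMod p) G, IsPIM P → cls P ∈ AddSubmonoid.closure (reductions G p)

end defs

section closure

variable {k G : Type} [Field k] [Group G]

lemma cls_exact {A B C : FRep k G} (h : IsExactSeq A B C) : cls B = cls A + cls C := by
  have : (FreeAbelianGroup.of B - FreeAbelianGroup.of A - FreeAbelianGroup.of C) ∈ relations k G :=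
    AddSubgroup.subset_closure ⟨A, B, C, h, rfl⟩
  have h2 := (QuotientAddGroup.eq_zero_iff _).2 this
  rw [QuotientAddGroup.mk_sub, QuotientAddGroup.mk_sub] at h2
  have h3 : cls B - cls A - cls C = 0 := h2
  rw [sub_sub, sub_eq_zero] at h3
  exact h3

lemma cls_of_subsingleton (A : FRep k G) [Subsingleton A.V] : cls A = 0 := by
  have h : IsExactSeq A A A := by
    refine ⟨.id _, .id _, fun a b _ => Subsingleton.elim a b, fun a => ⟨a, rfl⟩, fun b => ?_⟩
    exact ⟨fun _ => ⟨b, rfl⟩, fun _ => Subsingleton.elim _ _⟩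
  have := cls_exact h
  simpa using this

/-- the subrepresentation as a module -/
def subRep (P : FRep k G) (A : Subrepresentation P.ρ) : FRep k G where
  V := A.toSubmodule
  ρ := A.toRepresentation

/-- the quotient as a module -/
def quotRep (P : FRep k G) (A : Subrepresentation P.ρ) : FRep k G where
  V := P.V ⧸ A.toSubmodule
  ρ := P.ρ.quotient A.toSubmodule (fun g _ hv => A.apply_mem_toSubmodule g hv)

lemma exact_sub_quot (P : FRep k G) (A : Subrepresentation P.ρ) :
    IsExactSeq (subRep P A) P (quotRep P A) := by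
  refine ⟨⟨A.toSubmodule.subtype, fun g => rfl⟩, ⟨A.toSubmodule.mkQ, fun g => rfl⟩,
    Subtype.val_injective, Submodule.mkQ_surjective _, fun b => ?_⟩
  constructor
  · intro h
    have : b ∈ A.toSubmodule := (Submodule.Quotient.mk_eq_zero _).1 h
    exact ⟨⟨b, this⟩, rfl⟩
  · rintro ⟨a, rfl⟩
    exact (Submodule.Quotient.mk_eq_zero _).2 a.2

theorem cls_mem_closure (X : AddSubmonoid (G0 k G))
    (h : ∀ S : FRep k G, S.ρ.IsIrreducible → cls S ∈ X) (n : ℕ) :
    ∀ P : FRep k G, Module.finrank k P.V = n → cls P ∈ X := by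
  induction n using Nat.strong_induction_on with
  | _ n ih =>
    intro P hP
    by_cases h0 : Subsingleton P.V
    · rw [cls_of_subsingleton]; exact X.zero_mem
    rw [not_subsingleton_iff_nontrivial] at h0
    by_cases hirr : P.ρ.IsIrreducible
    · exact h P hirr
    · have : ∃ A : Subrepresentation P.ρ, A.toSubmodule ≠ ⊥ ∧ A.toSubmodule ≠ ⊤ := by
        by_contra hcon
        push Not at hcon
        apply hirr
        have hn : Nontrivial (Subrepresentation P.ρ) := ⟨⊥, ⊤, fun h => by
          have : (⊥ : Submodule k P.V) = ⊤ := congrArg Subrepresentation.toSubmodule h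
          exact bot_ne_top this⟩
        refine { eq_bot_or_eq_top := fun A => ?_ }
        by_cases hA : A.toSubmodule = ⊥
        · left; exact Subrepresentation.toSubmodule_injective hA
        · right; exact Subrepresentation.toSubmodule_injective (hcon A hA)
      obtain ⟨A, hA1, hA2⟩ := this
      rw [cls_exact (exact_sub_quot P A)]
      have e := Submodule.finrank_quotient_add_finrank A.toSubmodule
      have h1 : 0 < Module.finrank k A.toSubmodule := by
        rw [Nat.pos_iff_ne_zero]
        intro h
        exact hA1 (Submodule.finrank_eq_zero.1 h)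
      have h2 : Module.finrank k A.toSubmodule < Module.finrank k P.V := Submodule.finrank_lt hA2
      refine X.add_mem ?_ ?_
      · exact ih (Module.finrank k A.toSubmodule) (by omega) _ rfl
      · exact ih (Module.finrank k (P.V ⧸ A.toSubmodule)) (by omega) _ rfl

end closure

end Pool.Agent.Q109.SP
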