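import Pool.Agent.Q109.SP.A

set_option autoImplicit false

namespace Pool.Agent.Q109.SP

open Quaternion

section residue

/-- the residue map `ℤ_(2) → F_2` -/
def res : ZLoc 2 →+* ZMod 2 where
  toFun q := (q.1.num : ZMod 2)
  map_one' := by simp
  map_zero' := by simp
  map_mul' a b := by
    have key : ∀ q : ZLoc 2, ((q.1.den : ℤ) : ZMod 2) = 1 := fun q => by
      have h : ¬ 2 ∣ q.1.den := q.2
      have h2 : q.1.den % 2 = 1 := by omega
      have : ((q.1.den : ℕ) : ZMod 2) = ((1 : ℕ) : ZMod 2) := (ZMod.natCast_eq_natCast_iff _ _ _).2 h2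
      simpa using this
    have h := Rat.mul_num_den' a.1 b.1
    have h' := congrArg (Int.cast : ℤ → ZMod 2) h
    push_cast at h'
    have ka := key a
    have kb := key b
    have kab := key (a * b)
    push_cast at ka kb kab
    rw [ka, kb] at h'
    rw [kab] at h'
    simpa using h'
  map_add' a b := by
    have key : ∀ q : ZLoc 2, ((q.1.den : ℤ) : ZMod 2) = 1 := fun q => by
      have h : ¬ 2 ∣ q.1.den := q.2
      have h2 : q.1.den % 2 = 1 := by omega
      have : ((q.1.den : ℕ) : ZMod 2) = ((1 : ℕ) : ZMod 2) := (ZMod.natCast_eq_natCast_iff _ _ _).2 h2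
      simpa using this
    have h := Rat.add_num_den' a.1 b.1
    have h' := congrArg (Int.cast : ℤ → ZMod 2) h
    push_cast at h'
    have ka := key a
    have kb := key b
    have kab := key (a + b)
    push_cast at ka kb kab
    rw [ka, kb] at h'
    rw [kab] at h'
    simpa using h'

lemma res_eq_zero (q : ZLoc 2) : res q = 0 ↔ ∃ r : ZLoc 2, q = 2 * r := by
  constructor
  · intro h
    have h1 : (q.1.num : ZMod 2) = 0 := h
    rw [ZMod.intCast_zmod_eq_zero_iff_dvd] at h1
    obtain ⟨m, hm⟩ := h1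
    have h2 : (q.1 : ℚ) = 2 * ((m : ℚ) / (q.1.den : ℚ)) := by
      conv_lhs => rw [← Rat.num_div_den q.1, hm]
      push_cast; ring
    have hmem : ((m : ℚ) / (q.1.den : ℚ)) ∈ ZLoc 2 := by
      intro h3
      apply q.2
      have : ((m : ℚ) / ((q.1.den : ℤ) : ℚ)).den ∣ q.1.den := by
        have := Rat.den_dvd m (q.1.den : ℤ)
        rw [Rat.divInt_eq_div] at this
        exact_mod_cast this
      exact h3.trans (by exact_mod_cast this)
    exact ⟨⟨_, hmem⟩, Subtype.ext h2⟩
  · rintro ⟨r, rfl⟩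
    rw [map_mul, map_ofNat]
    have : (2 : ZMod 2) = 0 := by decide
    rw [this, zero_mul]

end residue

abbrev G := QuaternionGroup 3

section order

/-- the powers of the unit of order six -/
def U : ZMod 6 → ℍ[ℤ, -1, -1, -1] := ![⟨1, 0, 0, 0⟩, ⟨1, 1, 0, 0⟩, ⟨0, 1, 0, 0⟩, ⟨-1, 0, 0, 0⟩,
  ⟨-1, -1, 0, 0⟩, ⟨0, -1, 0, 0⟩]

/-- the images of the group elements -/
def φ0 : G → ℍ[ℤ, -1, -1, -1]
  | .a i => U i
  | .xa i => ⟨0, 0, 1, 0⟩ * U i

lemma φ0_mul_aux : ∀ x y : G, (φ0 (x * y)).re = (φ0 x * φ0 y).re ∧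
    (φ0 (x * y)).imI = (φ0 x * φ0 y).imI ∧ (φ0 (x * y)).imJ = (φ0 x * φ0 y).imJ ∧
    (φ0 (x * y)).imK = (φ0 x * φ0 y).imK := by decide +kernel

variable (A : Type) [CommRing A]

/-- change of coefficients -/
def cast (x : ℍ[ℤ, -1, -1, -1]) : ℍ[A, -1, -1, -1] := ⟨x.re, x.imI, x.imJ, x.imK⟩

lemma cast_mul (x y : ℍ[ℤ, -1, -1, -1]) : cast A (x * y) = cast A x * cast A y := by
  ext <;> simp [cast]

/-- the homomorphism from the group to the order -/
def φ : G →* ℍ[A, -1, -1, -1] where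
  toFun x := cast A (φ0 x)
  map_one' := by
    have h : φ0 1 = ⟨1, 0, 0, 0⟩ := rfl
    rw [h]
    ext <;> simp [cast]
  map_mul' x y := by
    rw [← cast_mul]
    congr 1
    obtain ⟨h1, h2, h3, h4⟩ := φ0_mul_aux x y
    exact QuaternionAlgebra.ext h1 h2 h3 h4

lemma idem (e : ℍ[ZLoc 2, -1, -1, -1]) (h : e * e = e) : e = 0 ∨ e = 1 := by
  have h1 := congrArg QuaternionAlgebra.re h
  have h2 := congrArg QuaternionAlgebra.imI h
  have h3 := congrArg QuaternionAlgebra.imJ h
  have h4 := congrArg QuaternionAlgebra.imK h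
  simp only [QuaternionAlgebra.re_mul, QuaternionAlgebra.imI_mul, QuaternionAlgebra.imJ_mul,
    QuaternionAlgebra.imK_mul] at h1 h2 h3 h4
  have g1 := congrArg (Subtype.val : ZLoc 2 → ℚ) h1
  have g2 := congrArg (Subtype.val : ZLoc 2 → ℚ) h2
  have g3 := congrArg (Subtype.val : ZLoc 2 → ℚ) h3
  have g4 := congrArg (Subtype.val : ZLoc 2 → ℚ) h4
  push_cast at g1 g2 g3 g4
  set a : ℚ := (e.re : ℚ) with ha
  set b : ℚ := (e.imI : ℚ) with hb
  set c : ℚ := (e.imJ : ℚ) with hc
  set d : ℚ := (e.imK : ℚ) with hd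
  have k2 : (2 * a - b - 1) * b = 0 := by linear_combination g2
  have k3 : (2 * a - b - 1) * c = 0 := by linear_combination g3
  have k4 : (2 * a - b - 1) * d = 0 := by linear_combination g4
  have k1 : (2 * a - b - 1) * a = a ^ 2 - a * b + b ^ 2 + c ^ 2 - c * d + d ^ 2 := by
    linear_combination g1
  by_cases ht : 2 * a - b - 1 = 0
  · exfalso
    rw [ht, zero_mul] at k1
    have hN : a ^ 2 - a * b + b ^ 2 + c ^ 2 - c * d + d ^ 2 = 0 := k1.symm
    have e1 : a = 0 := by nlinarith [sq_nonneg (a - 2 * b), sq_nonneg (c - 2 * d), sq_nonneg a, sq_nonneg c]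
    have e2 : b = 0 := by nlinarith [sq_nonneg (2 * a - b), sq_nonneg (c - 2 * d), sq_nonneg b, sq_nonneg c]
    rw [e1, e2] at ht
    norm_num at ht
  · have e2 : b = 0 := by simpa [ht] using k2
    have e3 : c = 0 := by simpa [ht] using k3
    have e4 : d = 0 := by simpa [ht] using k4
    have e1 : a = 0 ∨ a = 1 := by
      rw [e2, e3, e4] at k1
      have : a * (a - 1) = 0 := by linear_combination k1
      rcases mul_eq_zero.1 this with h | h
      · exact Or.inl h
      · exact Or.inr (by linarith)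
    rcases e1 with e1 | e1
    · left
      exact QuaternionAlgebra.ext (Subtype.ext e1) (Subtype.ext e2) (Subtype.ext e3) (Subtype.ext e4)
    · right
      exact QuaternionAlgebra.ext (Subtype.ext e1) (Subtype.ext e2) (Subtype.ext e3) (Subtype.ext e4)

end order

end Pool.Agent.Q109.SP
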