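import Pool.Agent.Q109.SP.B

set_option autoImplicit false

namespace Pool.Agent.Q109.SP

open Quaternion

section lifting

/-- idempotents lift along surjections from semisimple rings -/
lemma lift_idem {A B : Type*} [Ring A] [Ring B] [IsSemisimpleRing A] (f : A →+* B)
    (hf : Function.Surjective f) (e : B) (he : e * e = e) : ∃ x : A, x * x = x ∧ f x = e := by
  obtain ⟨I', hI⟩ := exists_isCompl (RingHom.ker f)
  obtain ⟨i, hi, c, hc, hic⟩ := Submodule.mem_sup.1
    (show (1 : A) ∈ RingHom.ker f ⊔ I' by rw [hI.sup_eq_top]; trivial)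
  have hxc : ∀ x ∈ RingHom.ker f, x * c = 0 := fun x hx => by
    have h1 : x * c = x - x * i := by
      have hc1 : c = 1 - i := by rw [← hic]; abel
      rw [hc1, mul_sub, mul_one]
    have h2 : x * c ∈ RingHom.ker f := by
      rw [h1]; exact Ideal.sub_mem _ hx (Ideal.mul_mem_left _ _ hi)
    have h3 : x * c ∈ I' := Ideal.mul_mem_left _ _ hc
    have := (Submodule.disjoint_def.1 hI.disjoint) _ h2 h3
    exact this
  have hfc : f c = 1 := by
    have := congrArg f hic
    rw [map_add, RingHom.mem_ker.1 hi, zero_add, map_one] at this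
    exact this
  obtain ⟨y, hy⟩ := hf e
  have hcc : c * c = c := by
    have h := hxc i hi
    have : (i + c) * c = c := by rw [hic, one_mul]
    rwa [add_mul, h, zero_add] at this
  refine ⟨c * y * c, ?_, ?_⟩
  · have h1 : y * c * (y) - y ∈ RingHom.ker f := by
      rw [RingHom.mem_ker, map_sub, map_mul, map_mul, hfc, hy, mul_one, he, sub_self]
    have h2 := hxc _ h1
    have h3 : y * c * y * c = y * c := by rwa [sub_mul, sub_eq_zero] at h2
    calc c * y * c * (c * y * c) = c * y * (c * c) * y * c := by noncomm_ring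
      _ = c * (y * c * y * c) := by rw [hcc]; noncomm_ring
      _ = c * y * c := by rw [h3, mul_assoc]
  · rw [map_mul, map_mul, hfc, hy, one_mul, mul_one]

end lifting

section main

/-- the group ring -/
abbrev R := MonoidAlgebra (ZLoc 2) G

/-- the map to the order -/
noncomputable def δ : R →+* ℍ[ZLoc 2, -1, -1, -1] :=
  (MonoidAlgebra.lift (ZLoc 2) ℍ[ZLoc 2, -1, -1, -1] G (φ (ZLoc 2))).toRingHom

lemma δ_single (g : G) (r : ZLoc 2) : δ (MonoidAlgebra.single g r) = r • φ (ZLoc 2) g := by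
  simp [δ]

abbrev M2 := Matrix (Fin 2) (Fin 2) (ZMod 2)

/-- reduction of the order modulo two -/
def red : ℍ[ZLoc 2, -1, -1, -1] →+* ℍ[ZMod 2, -1, -1, -1] where
  toFun x := ⟨res x.re, res x.imI, res x.imJ, res x.imK⟩
  map_one' := by ext <;> simp
  map_zero' := by ext <;> simp
  map_mul' x y := by
    ext <;> simp [sub_eq_add_neg, ZMod.neg_eq_self_mod_two]
  map_add' x y := by ext <;> simp

/-- the matrix of `ω` -/
def T : M2 := !![0, 1; 1, 1]
/-- the matrix of `j` -/
def S : M2 := !![0, 1; 1, 0]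

/-- a quaternion basis of the matrix ring -/
def bas : QuaternionAlgebra.Basis M2 (-1 : ZMod 2) (-1) (-1) where
  i := T
  j := S
  k := T * S
  i_mul_i := by decide
  j_mul_j := by decide
  i_mul_j := rfl
  j_mul_i := by decide

/-- the map of the reduced order to the matrix ring -/
def χ : ℍ[ZMod 2, -1, -1, -1] →+* M2 := bas.liftHom.toRingHom

/-- the composite -/
noncomputable def ψ : R →+* M2 := (χ.comp red).comp δ

lemma ψ_apply (x : R) : ψ x = χ (red (δ x)) := rfl

lemma surj_aux : ∀ m : M2, ∃ a b c d : ZMod 2,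
    m = a.val • (1 : M2) + b.val • T + c.val • S + d.val • (T * S) := by decide +kernel

lemma ψ_T : ψ (MonoidAlgebra.single (QuaternionGroup.a 2) 1) = T := by
  rw [ψ_apply, δ_single, one_smul]
  have h : red (φ (ZLoc 2) (QuaternionGroup.a 2)) = ⟨0, 1, 0, 0⟩ := by
    have h0 : φ0 (QuaternionGroup.a 2) = ⟨0, 1, 0, 0⟩ := rfl
    change red (cast _ (φ0 _)) = _
    rw [h0]
    ext <;> simp [red, cast]
  rw [h]
  change bas.lift _ = _
  simp [QuaternionAlgebra.Basis.lift, bas]

lemma ψ_S : ψ (MonoidAlgebra.single (QuaternionGroup.xa 0) 1) = S := by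
  rw [ψ_apply, δ_single, one_smul]
  have h : red (φ (ZLoc 2) (QuaternionGroup.xa 0)) = ⟨0, 0, 1, 0⟩ := by
    have h0 : φ0 (QuaternionGroup.xa 0) = ⟨0, 0, 1, 0⟩ := by
      have h1 : φ0 (QuaternionGroup.xa 0) = ⟨0, 0, 1, 0⟩ * ⟨1, 0, 0, 0⟩ := rfl
      rw [h1]
      ext <;> simp
    change red (cast _ (φ0 _)) = _
    rw [h0]
    ext <;> simp [red, cast]
  rw [h]
  change bas.lift _ = _
  simp [QuaternionAlgebra.Basis.lift, bas]

lemma ψ_surj : Function.Surjective ψ := by
  intro m
  obtain ⟨a, b, c, d, hm⟩ := surj_aux m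
  have h : m ∈ ψ.range := by
    rw [hm]
    have hT : T ∈ ψ.range := ⟨_, ψ_T⟩
    have hS : S ∈ ψ.range := ⟨_, ψ_S⟩
    exact add_mem (add_mem (add_mem (nsmul_mem (one_mem _) _) (nsmul_mem hT _))
      (nsmul_mem hS _)) (nsmul_mem (mul_mem hT hS) _)
  exact h

theorem not_semiperfect : ¬ IsSemiperfect R := by
  rintro ⟨hss, hlift⟩
  have hJ : ∀ x ∈ Ring.jacobson R, ψ x = 0 := by
    intro x hx
    have : RingHomSurjective ψ := ⟨ψ_surj⟩
    have h1 := Ring.le_comap_jacobson ψ hx
    have h2 : Ring.jacobson M2 = ⊥ := IsSemisimpleRing.jacobson_eq_bot _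
    rw [h2] at h1
    exact h1
  let ψ' : R ⧸ Ring.jacobson R →+* M2 := Ideal.Quotient.lift _ ψ hJ
  have hψ' : Function.Surjective ψ' := by
    intro m
    obtain ⟨x, rfl⟩ := ψ_surj m
    exact ⟨Ideal.Quotient.mk _ x, rfl⟩
  obtain ⟨x, hx, hxe⟩ := lift_idem ψ' hψ' !![1, 0; 0, 0] (by decide)
  obtain ⟨f, hf, rfl⟩ := hlift x hx
  have h1 : ψ f = !![1, 0; 0, 0] := hxe
  have h2 : δ f * δ f = δ f := by
    rw [← map_mul]; congr 1
  rcases idem _ h2 with h | h
  · rw [ψ_apply, h, map_zero, map_zero] at h1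
    revert h1; decide
  · rw [ψ_apply, h, map_one, map_one] at h1
    revert h1; decide

end main

end Pool.Agent.Q109.SP
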