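import Pool.Agent.Q109.SP.B

set_option autoImplicit false

namespace Pool.Agent.Q109.SP

open Representation

section red

variable {n : ℕ}

/-- the rational representation attached to an integral matrix representation -/
noncomputable def ratRep (F : G →* Matrix (Fin n) (Fin n) ℤ) : Representation ℚ G (Fin n → ℚ) :=
  ((Matrix.toLinAlgEquiv' : Matrix (Fin n) (Fin n) ℚ ≃ₐ[ℚ] _).toAlgHom.toRingHom.toMonoidHom).comp
    ((Int.castRingHom ℚ).mapMatrix.toMonoidHom.comp F)

lemma ratRep_apply (F : G →* Matrix (Fin n) (Fin n) ℤ) (g : G) (x : Fin n → ℚ) (i : Fin n) :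
    ratRep F g x i = ∑ j, (F g i j : ℚ) * x j := by
  simp only [ratRep, MonoidHom.comp_apply]
  rfl

/-- the module attached to an integral matrix representation -/
noncomputable def VF (F : G →* Matrix (Fin n) (Fin n) ℤ) : FRep ℚ G where
  V := Fin n → ℚ
  ρ := ratRep F

/-- the standard lattice -/
def LF (n : ℕ) : Submodule (ZLoc 2) (Fin n → ℚ) where
  carrier := {x | ∀ i, x i ∈ ZLoc 2}
  add_mem' := fun {_ _} ha hb i => (ZLoc 2).add_mem (ha i) (hb i)
  zero_mem' := fun _ => (ZLoc 2).zero_mem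
  smul_mem' := fun c _ hx i => (ZLoc 2).mul_mem c.2 (hx i)

lemma LF_fg (n : ℕ) : (LF n).FG := by
  refine ⟨Finset.univ.image (fun i : Fin n => (Pi.single i (1 : ℚ) : Fin n → ℚ)), ?_⟩
  apply le_antisymm
  · rw [Submodule.span_le]
    intro x hx
    simp only [Finset.coe_image, Finset.coe_univ, Set.image_univ, Set.mem_range] at hx
    obtain ⟨i, rfl⟩ := hx
    intro j
    by_cases h : j = i
    · subst h; simp [(ZLoc 2).one_mem]
    · rw [Pi.single_eq_of_ne h]; exact (ZLoc 2).zero_mem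
  · intro x hx
    have : x = ∑ i, (⟨x i, hx i⟩ : ZLoc 2) • (Pi.single i (1 : ℚ) : Fin n → ℚ) := by
      ext j
      simp only [Finset.sum_apply, Pi.smul_apply]
      rw [Finset.sum_eq_single j]
      · rw [Pi.single_eq_same]
        change x j = x j * 1
        rw [mul_one]
      · intro b _ hb
        rw [Pi.single_eq_of_ne hb.symm, smul_zero]
      · simp
    rw [this]
    refine Submodule.sum_mem _ fun i _ => Submodule.smul_mem _ _ (Submodule.subset_span ?_)
    simp

lemma LF_span (n : ℕ) : Submodule.span ℚ (LF n : Set (Fin n → ℚ)) = ⊤ := by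
  rw [eq_top_iff]
  intro x _
  have : x = ∑ i, x i • (Pi.single i (1 : ℚ) : Fin n → ℚ) := by
    ext j
    simp only [Finset.sum_apply, Pi.smul_apply]
    rw [Finset.sum_eq_single j]
    · simp
    · intro b _ hb
      rw [Pi.single_eq_of_ne hb.symm, smul_zero]
    · simp
  rw [this]
  refine Submodule.sum_mem _ fun i _ => Submodule.smul_mem _ _ (Submodule.subset_span ?_)
  intro j
  by_cases h : j = i
  · subst h; simp [(ZLoc 2).one_mem]
  · rw [Pi.single_eq_of_ne h]; exact (ZLoc 2).zero_mem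

lemma intCast_mem' (z : ℤ) : (z : ℚ) ∈ ZLoc 2 := intCast_mem (ZLoc 2) z

lemma LF_stable (F : G →* Matrix (Fin n) (Fin n) ℤ) (g : G) (x : Fin n → ℚ) (hx : x ∈ LF n) :
    ratRep F g x ∈ LF n := by
  intro i
  rw [ratRep_apply]
  exact sum_mem fun j _ => mul_mem (intCast_mem' _) (hx j)

theorem isReduction_aux (F : G →* Matrix (Fin n) (Fin n) ℤ) (W : FRep (ZMod 2) G)
    (b : Module.Basis (Fin n) (ZMod 2) W.V)
    (h : ∀ (g : G) (j : Fin n), W.ρ g (b j) = ∑ i, (F g i j : ZMod 2) • b i) :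
    ∃ π : LF n →+ W.V, Function.Surjective π ∧ (∀ x, π x = 0 ↔ ∃ y : LF n, x = 2 • y) ∧
        ∀ (g : G) (x : LF n), π ⟨ratRep F g x.1, LF_stable F g x.1 x.2⟩ = W.ρ g (π x) := by
  let π : LF n →+ W.V :=
    { toFun := fun x => ∑ i, res ⟨x.1 i, x.2 i⟩ • b i
      map_zero' := by
        refine Finset.sum_eq_zero fun i _ => ?_
        have : (⟨(0 : LF n).1 i, (0 : LF n).2 i⟩ : ZLoc 2) = 0 := rfl
        rw [this, map_zero, zero_smul]
      map_add' := fun x y => by
        rw [← Finset.sum_add_distrib]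
        refine Finset.sum_congr rfl fun i _ => ?_
        rw [← add_smul, ← map_add]
        rfl }
  have hπ : ∀ x : LF n, π x = ∑ i, res ⟨x.1 i, x.2 i⟩ • b i := fun _ => rfl
  refine ⟨π, ?_, ?_, ?_⟩
  · intro w
    have hmem : ∀ i, (((b.repr w i).val : ℤ) : ℚ) ∈ ZLoc 2 := fun i => intCast_mem' _
    refine ⟨⟨fun i => (((b.repr w i).val : ℤ) : ℚ), hmem⟩, ?_⟩
    rw [hπ]
    conv_rhs => rw [← b.sum_repr w]
    refine Finset.sum_congr rfl fun i _ => ?_
    congr 1
    have : (⟨(((b.repr w i).val : ℤ) : ℚ), hmem i⟩ : ZLoc 2) = ((b.repr w i).val : ZLoc 2) := by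
      apply Subtype.ext
      push_cast
      rfl
    change res ⟨(((b.repr w i).val : ℤ) : ℚ), hmem i⟩ = _
    rw [this, map_natCast]
    exact ZMod.natCast_zmod_val _
  · intro x
    constructor
    · intro h0
      have h1 : ∀ i, res ⟨x.1 i, x.2 i⟩ = 0 := by
        have := b.linearIndependent
        rw [Fintype.linearIndependent_iff] at this
        exact this _ h0
      have h2 : ∀ i, ∃ r : ZLoc 2, (⟨x.1 i, x.2 i⟩ : ZLoc 2) = 2 * r := fun i =>
        (res_eq_zero _).1 (h1 i)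
      choose r hr using h2
      refine ⟨⟨fun i => (r i : ℚ), fun i => (r i).2⟩, ?_⟩
      apply Subtype.ext
      ext i
      have := congrArg Subtype.val (hr i)
      change x.1 i = (2 • (fun i => (r i : ℚ)) : Fin n → ℚ) i
      rw [Pi.smul_apply, nsmul_eq_mul]
      exact this
    · rintro ⟨y, rfl⟩
      rw [map_nsmul, two_nsmul]
      rw [← two_smul (ZMod 2)]
      have : (2 : ZMod 2) = 0 := by decide
      rw [this, zero_smul]
  · intro g x
    rw [hπ, hπ, map_sum]
    have e1 : ∀ i, res ⟨ratRep F g x.1 i, LF_stable F g x.1 x.2 i⟩ =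
        ∑ j, (F g i j : ZMod 2) * res ⟨x.1 j, x.2 j⟩ := by
      intro i
      have : (⟨ratRep F g x.1 i, LF_stable F g x.1 x.2 i⟩ : ZLoc 2) =
          ∑ j, ((F g i j : ℤ) : ZLoc 2) * ⟨x.1 j, x.2 j⟩ := by
        apply Subtype.ext
        refine (ratRep_apply F g x.1 i).trans ?_
        push_cast
        rfl
      rw [this, map_sum]
      refine Finset.sum_congr rfl fun j _ => ?_
      rw [map_mul, map_intCast]
    have e2 : ∀ i, res ⟨ratRep F g x.1 i, LF_stable F g x.1 x.2 i⟩ • b i =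
        ∑ j, ((F g i j : ZMod 2) * res ⟨x.1 j, x.2 j⟩) • b i := by
      intro i
      rw [← Finset.sum_smul]
      congr 1
      exact e1 i
    rw [Finset.sum_congr rfl (fun i _ => e2 i), Finset.sum_comm]
    refine Finset.sum_congr rfl fun j _ => ?_
    rw [map_smul, h, Finset.smul_sum]
    refine Finset.sum_congr rfl fun i _ => ?_
    rw [mul_comm, mul_smul]

lemma mem_lattice (F : G →* Matrix (Fin n) (Fin n) ℤ) (x : Fin n → ℚ) :
    x ∈ lattice 2 (VF F) (fun i : Fin n => (Pi.single i (1 : ℚ) : Fin n → ℚ)) ↔ x ∈ LF n := by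
  have key : ∀ c : Fin n → ℚ, ∑ i, c i • (Pi.single i (1 : ℚ) : Fin n → ℚ) = c := by
    intro c
    ext j
    simp only [Finset.sum_apply, Pi.smul_apply]
    rw [Finset.sum_eq_single j]
    · simp
    · intro b _ hb
      rw [Pi.single_eq_of_ne hb.symm, smul_zero]
    · simp
  constructor
  · rintro ⟨c, hc, h⟩
    have h' : c = x := (key c).symm.trans h
    rw [← h']
    exact hc
  · intro h
    exact ⟨x, h, key x⟩

theorem isReduction (F : G →* Matrix (Fin n) (Fin n) ℤ) (W : FRep (ZMod 2) G)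
    (b : Module.Basis (Fin n) (ZMod 2) W.V)
    (h : ∀ (g : G) (j : Fin n), W.ρ g (b j) = ∑ i, (F g i j : ZMod 2) • b i) :
    IsReduction 2 (VF F) W := by
  classical
  obtain ⟨π, h1, h2, h3⟩ := isReduction_aux F W b h
  refine ⟨n, fun i : Fin n => (Pi.single i (1 : ℚ) : Fin n → ℚ), ?_, ?_,
    fun x : Fin n → ℚ => if hx : x ∈ LF n then π ⟨x, hx⟩ else 0, ?_, ?_, ?_, ?_⟩
  · change Submodule.span ℚ (Set.range fun i : Fin n => (Pi.single i (1 : ℚ) : Fin n → ℚ)) = ⊤
    rw [eq_top_iff]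
    intro x _
    have : x = ∑ i, x i • (Pi.single i (1 : ℚ) : Fin n → ℚ) := by
      ext j
      simp only [Finset.sum_apply, Pi.smul_apply]
      rw [Finset.sum_eq_single j]
      · simp
      · intro b _ hb
        rw [Pi.single_eq_of_ne hb.symm, smul_zero]
      · simp
    rw [this]
    exact Submodule.sum_mem _ fun i _ => Submodule.smul_mem _ _ (Submodule.subset_span ⟨i, rfl⟩)
  · intro g x hx
    exact (mem_lattice F _).2 (LF_stable F g x ((mem_lattice F x).1 hx))
  · intro x hx y hy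
    have hx' : x ∈ LF n := (mem_lattice F x).1 hx
    have hy' : y ∈ LF n := (mem_lattice F y).1 hy
    have hxy : x + y ∈ LF n := (LF n).add_mem hx' hy'
    refine (dif_pos hxy).trans ?_
    refine Eq.trans ?_ (congrArg₂ (· + ·) (dif_pos hx').symm (dif_pos hy').symm)
    exact map_add π ⟨x, hx'⟩ ⟨y, hy'⟩
  · intro w
    obtain ⟨x, hx⟩ := h1 w
    exact ⟨x.1, (mem_lattice F _).2 x.2, (dif_pos x.2).trans hx⟩
  · intro x hx
    have hx' : x ∈ LF n := (mem_lattice F x).1 hx
    have e : (if hx : x ∈ LF n then π ⟨x, hx⟩ else 0) = π ⟨x, hx'⟩ := dif_pos hx'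
    refine (iff_of_eq (congrArg (· = 0) e)).trans ?_
    rw [h2]
    constructor
    · rintro ⟨y, hy⟩
      exact ⟨y.1, (mem_lattice F _).2 y.2, congrArg Subtype.val hy⟩
    · rintro ⟨y, hy, hxy⟩
      exact ⟨⟨y, (mem_lattice F _).1 hy⟩, Subtype.ext hxy⟩
  · intro g x hx
    have hx' : x ∈ LF n := (mem_lattice F x).1 hx
    have hg : ratRep F g x ∈ LF n := LF_stable F g x hx'
    refine (dif_pos hg).trans ?_
    refine (h3 g ⟨x, hx'⟩).trans ?_
    have e : (if hx : x ∈ LF n then π ⟨x, hx⟩ else 0) = π ⟨x, hx'⟩ := dif_pos hx'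
    exact congrArg (W.ρ g) e.symm

end red

end Pool.Agent.Q109.SP
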