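import Pool.Agent.Q109.SP.D

set_option autoImplicit false

namespace Pool.Agent.Q109.SP

open Representation

section rat

/-- the trivial integral representation -/
def F1 : G →* Matrix (Fin 1) (Fin 1) ℤ := 1

/-- values of the two-dimensional integral representation -/
def F2v : G → Matrix (Fin 2) (Fin 2) ℤ
  | .a i => !![0, -1; 1, -1] ^ i.val
  | .xa i => !![1, -1; 0, -1] * !![0, -1; 1, -1] ^ i.val

/-- the two-dimensional integral representation -/
def F2 : G →* Matrix (Fin 2) (Fin 2) ℤ where
  toFun := F2v
  map_one' := by decide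
  map_mul' := by decide +kernel

lemma irr1 : (VF F1).ρ.IsIrreducible := by
  have hn : Nontrivial (Subrepresentation (ratRep F1)) := ⟨⊥, ⊤, fun h => by
    have : (⊥ : Submodule ℚ (Fin 1 → ℚ)) = ⊤ := congrArg Subrepresentation.toSubmodule h
    exact bot_ne_top this⟩
  have : (ratRep F1).IsIrreducible := by
    refine { eq_bot_or_eq_top := fun A => ?_ }
    by_cases hA : A.toSubmodule = ⊥
    · left; exact Subrepresentation.toSubmodule_injective hA
    · right
      apply Subrepresentation.toSubmodule_injective
      change A.toSubmodule = ⊤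
      obtain ⟨v, hv, hv0⟩ := Submodule.exists_mem_ne_zero_of_ne_bot hA
      rw [eq_top_iff]
      intro x _
      have h0 : v 0 ≠ 0 := fun h => hv0 (by
        ext i
        have : i = 0 := Subsingleton.elim _ _
        rw [this, h]; rfl)
      have : x = (x 0 / v 0) • v := by
        ext i
        have : i = 0 := Subsingleton.elim _ _
        subst this
        simp [h0]
      rw [this]
      exact A.toSubmodule.smul_mem _ hv
  exact this

lemma irr2 : (VF F2).ρ.IsIrreducible := by
  have hn : Nontrivial (Subrepresentation (ratRep F2)) := ⟨⊥, ⊤, fun h => by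
    have : (⊥ : Submodule ℚ (Fin 2 → ℚ)) = ⊤ := congrArg Subrepresentation.toSubmodule h
    exact bot_ne_top this⟩
  have : (ratRep F2).IsIrreducible := by
    refine { eq_bot_or_eq_top := fun A => ?_ }
    by_cases hA : A.toSubmodule = ⊥
    · left; exact Subrepresentation.toSubmodule_injective hA
    · right
      apply Subrepresentation.toSubmodule_injective
      change A.toSubmodule = ⊤
      obtain ⟨v, hv, hv0⟩ := Submodule.exists_mem_ne_zero_of_ne_bot hA
      have hw : ratRep F2 (QuaternionGroup.a 1) v ∈ A.toSubmodule :=
        A.apply_mem_toSubmodule _ hv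
      have hM : F2 (QuaternionGroup.a 1) = !![0, -1; 1, -1] := by decide
      have hw' : ratRep F2 (QuaternionGroup.a 1) v = ![-v 1, v 0 - v 1] := by
        ext i
        rw [ratRep_apply, hM]
        fin_cases i
        · simp [Fin.sum_univ_two]
        · simp [Fin.sum_univ_two]; ring
      rw [hw'] at hw
      have hN : v 0 ^ 2 - v 0 * v 1 + v 1 ^ 2 ≠ 0 := by
        intro h
        apply hv0
        have h0 : v 0 = 0 := by nlinarith [sq_nonneg (v 0 - 2 * v 1), sq_nonneg (v 0)]
        have h1 : v 1 = 0 := by nlinarith [sq_nonneg (2 * v 0 - v 1), sq_nonneg (v 1)]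
        ext i
        fin_cases i
        · exact h0
        · exact h1
      rw [eq_top_iff]
      intro x _
      have : x = ((x 0 * (v 0 - v 1) + x 1 * v 1) / (v 0 ^ 2 - v 0 * v 1 + v 1 ^ 2)) • v +
          ((v 0 * x 1 - v 1 * x 0) / (v 0 ^ 2 - v 0 * v 1 + v 1 ^ 2)) •
            (![-v 1, v 0 - v 1] : Fin 2 → ℚ) := by
        ext i
        fin_cases i
        · change x 0 = _ / _ * v 0 + _ / _ * (-v 1)
          rw [div_mul_eq_mul_div, div_mul_eq_mul_div, ← add_div, eq_div_iff hN]; ring
        · change x 1 = _ / _ * v 1 + _ / _ * (v 0 - v 1)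
          rw [div_mul_eq_mul_div, div_mul_eq_mul_div, ← add_div, eq_div_iff hN]; ring
      rw [this]
      exact add_mem (A.toSubmodule.smul_mem _ hv) (A.toSubmodule.smul_mem _ hw)
  exact this

end rat

section simple

variable (W : FRep (ZMod 2) G) [hW : W.ρ.IsIrreducible]

omit hW in
lemma add_self' (v : W.V) : v + v = 0 := by
  rw [← two_smul (ZMod 2)]
  have : (2 : ZMod 2) = 0 := by decide
  rw [this, zero_smul]

omit hW in
lemma eq_of_add (v w : W.V) (h : v + w = 0) : v = w := by
  rw [← add_self' W w] at h
  exact add_right_cancel h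

include hW in
/-- an endomorphism with stable kernel is zero or injective -/
lemma dichotomy (f : W.V →ₗ[ZMod 2] W.V) (hf : ∀ g v, f v = 0 → f (W.ρ g v) = 0) :
    f = 0 ∨ Function.Injective f := by
  let A : Subrepresentation W.ρ := ⟨LinearMap.ker f, fun g v hv => hf g v hv⟩
  rcases eq_bot_or_eq_top A with h | h
  · right
    rw [← LinearMap.ker_eq_bot]
    exact congrArg Subrepresentation.toSubmodule h
  · left
    rw [← LinearMap.ker_eq_top]
    exact congrArg Subrepresentation.toSubmodule h

omit hW in
lemma mul_apply' (g h : G) (v : W.V) : W.ρ g (W.ρ h v) = W.ρ (g * h) v := by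
  rw [map_mul]; rfl

include hW in
lemma nontriv : ∃ v : W.V, v ≠ 0 := by
  by_contra h
  push Not at h
  have h1 : (⊥ : Subrepresentation W.ρ) = ⊤ := by
    apply Subrepresentation.toSubmodule_injective
    change (⊥ : Submodule (ZMod 2) W.V) = ⊤
    rw [eq_comm, eq_bot_iff]
    intro v _
    exact h v
  exact bot_ne_top h1

include hW in
lemma central : ∀ v, W.ρ (QuaternionGroup.a 3) v = v := by
  let f : W.V →ₗ[ZMod 2] W.V := W.ρ (QuaternionGroup.a 3) + 1
  have hf : ∀ v, f v = W.ρ (QuaternionGroup.a 3) v + v := fun _ => rfl
  have hc : ∀ g : G, QuaternionGroup.a 3 * g = g * QuaternionGroup.a 3 := by decide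
  have hsq : ∀ v, f (f v) = 0 := fun v => by
    rw [hf, hf, map_add, mul_apply']
    have : (QuaternionGroup.a 3 * QuaternionGroup.a 3 : G) = 1 := by decide
    rw [this, map_one, Module.End.one_apply, add_comm v, add_self']
  have h0 : f = 0 := by
    rcases dichotomy W f (fun g v hv => by
      rw [hf] at hv ⊢
      rw [mul_apply', hc, ← mul_apply', ← map_add, hv, map_zero]) with h | h
    · exact h
    · ext v
      apply h
      rw [hsq]; simp
  intro v
  apply eq_of_add
  rw [← hf, h0]; rfl

omit hW in
lemma gen (P : G → Prop) (h1 : P (QuaternionGroup.a 1)) (h2 : P (QuaternionGroup.xa 0))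
    (hm : ∀ g h, P g → P h → P (g * h)) (g : G) : P g := by
  have h0 : P 1 := by
    have e : (1 : G) = QuaternionGroup.a 1 * (QuaternionGroup.a 1 * (QuaternionGroup.a 1 *
      (QuaternionGroup.a 1 * (QuaternionGroup.a 1 * QuaternionGroup.a 1)))) := by decide
    rw [e]
    exact hm _ _ h1 (hm _ _ h1 (hm _ _ h1 (hm _ _ h1 (hm _ _ h1 h1))))
  have hpow : ∀ i : ZMod 6, (QuaternionGroup.a i : G) = QuaternionGroup.a 1 ^ i.val := by decide
  have hxa : ∀ i : ZMod 6, (QuaternionGroup.xa i : G) = QuaternionGroup.xa 0 * QuaternionGroup.a i := by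
    decide
  have hk : ∀ k : ℕ, P (QuaternionGroup.a 1 ^ k) := fun k => by
    induction k with
    | zero => simpa using h0
    | succ k ih => rw [pow_succ]; exact hm _ _ ih h1
  rcases g with i | i
  · change P (QuaternionGroup.a i)
    rw [hpow i]; exact hk _
  · change P (QuaternionGroup.xa i)
    rw [hxa i, hpow i]; exact hm _ _ h2 (hk _)

include hW in
theorem classification : IsReduction 2 (VF F1) W ∨ IsReduction 2 (VF F2) W := by
  have hz := central W
  have hpow : ∀ i : ZMod 6, (QuaternionGroup.a i : G) = QuaternionGroup.a 1 ^ i.val := by decide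
  have hxa : ∀ i : ZMod 6, (QuaternionGroup.xa i : G) = QuaternionGroup.xa 0 * QuaternionGroup.a i := by
    decide
  -- square-zero trick for `xa 0`
  have hs2 : ∀ v, W.ρ (QuaternionGroup.xa 0) (W.ρ (QuaternionGroup.xa 0) v) = v := fun v => by
    rw [mul_apply']
    have : (QuaternionGroup.xa 0 * QuaternionGroup.xa 0 : G) = QuaternionGroup.a 3 := by decide
    rw [this, hz]
  let f : W.V →ₗ[ZMod 2] W.V := W.ρ (QuaternionGroup.a 1) + 1
  have hf : ∀ v, f v = W.ρ (QuaternionGroup.a 1) v + v := fun _ => rfl
  obtain ⟨u, hu⟩ := nontriv W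
  rcases dichotomy W f (fun g v hv => by
      have h1 : W.ρ (QuaternionGroup.a 1) v = v := by
        apply eq_of_add; rw [← hf]; exact hv
      have hk : ∀ k : ℕ, W.ρ (QuaternionGroup.a 1 ^ k) v = v := fun k => by
        induction k with
        | zero => simp
        | succ k ih => rw [pow_succ, ← mul_apply', h1, ih]
      have hcomm : ∀ g : G, ∃ i : ZMod 6, QuaternionGroup.a 1 * g = g * QuaternionGroup.a i := by
        decide
      obtain ⟨i, hi⟩ := hcomm g
      rw [hf, mul_apply', hi, ← mul_apply', hpow i, hk, add_self']) with h | h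
  · left
    have h1 : ∀ v, W.ρ (QuaternionGroup.a 1) v = v := fun v => by
      apply eq_of_add; rw [← hf, h]; rfl
    have hk : ∀ (k : ℕ) v, W.ρ (QuaternionGroup.a 1 ^ k) v = v := fun k v => by
        induction k with
        | zero => simp
        | succ k ih => rw [pow_succ, ← mul_apply', h1, ih]
    let f' : W.V →ₗ[ZMod 2] W.V := W.ρ (QuaternionGroup.xa 0) + 1
    have hf' : ∀ v, f' v = W.ρ (QuaternionGroup.xa 0) v + v := fun _ => rfl
    have hs : ∀ v, W.ρ (QuaternionGroup.xa 0) v = v := by
      have h0 : f' = 0 := by
        rcases dichotomy W f' (fun g v hv => by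
          have h2 : W.ρ (QuaternionGroup.xa 0) v = v := by
            apply eq_of_add; rw [← hf']; exact hv
          have hcomm : ∀ g : G, ∃ i : ZMod 6, QuaternionGroup.xa 0 * g =
            g * (QuaternionGroup.xa 0 * QuaternionGroup.a i) := by decide
          obtain ⟨i, hi⟩ := hcomm g
          rw [hf', mul_apply', hi, ← mul_apply', ← mul_apply', hpow i, hk, h2, add_self']) with h | h
        · exact h
        · ext v
          apply h
          rw [hf', hf', map_add, hs2, add_comm v, add_self']; simp
      intro v
      apply eq_of_add; rw [← hf', h0]; rfl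
    have htriv : ∀ (g : G) v, W.ρ g v = v := by
      intro g v
      rcases g with i | i
      · rw [hpow i, hk]
      · rw [hxa i, ← mul_apply', hpow i, hk, hs]
    have hspan : Submodule.span (ZMod 2) {u} = ⊤ := by
      let A : Subrepresentation W.ρ := ⟨Submodule.span (ZMod 2) {u}, fun g v hv => by
        rw [htriv]; exact hv⟩
      rcases eq_bot_or_eq_top A with h | h
      · exfalso
        apply hu
        have : Submodule.span (ZMod 2) {u} = ⊥ := congrArg Subrepresentation.toSubmodule h
        exact Submodule.span_singleton_eq_bot.1 this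
      · exact congrArg Subrepresentation.toSubmodule h
    let b : Module.Basis (Fin 1) (ZMod 2) W.V := Module.Basis.mk (v := fun _ => u)
      (linearIndependent_unique_iff.2 hu) (by
        rw [Set.range_const, hspan])
    refine isReduction F1 W b fun g j => ?_
    rw [htriv, Fin.sum_univ_one]
    have : j = 0 := Subsingleton.elim _ _
    subst this
    simp [F1]
  · right
    obtain ⟨w, hw0, hw⟩ : ∃ w : W.V, w ≠ 0 ∧ W.ρ (QuaternionGroup.xa 0) w = w := by
      by_cases h3 : W.ρ (QuaternionGroup.xa 0) u + u = 0
      · exact ⟨u, hu, eq_of_add W _ _ h3⟩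
      · refine ⟨_, h3, ?_⟩
        rw [map_add, hs2, add_comm]
    set t := W.ρ (QuaternionGroup.a 1) with ht
    have ht3 : ∀ v, t (t (t v)) = v := fun v => by
      rw [ht, mul_apply', mul_apply']
      have : (QuaternionGroup.a 1 * QuaternionGroup.a 1 * QuaternionGroup.a 1 : G) =
        QuaternionGroup.a 3 := by decide
      rw [this, hz]
    have hcyc : ∀ v, t (t v) = v + t v := fun v => by
      have : f (v + t v + t (t v)) = f 0 := by
        rw [hf, map_zero, map_add, map_add, ht3]
        have e : t v + t (t v) + v + (v + t v + t (t v)) =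
          (t v + t v) + (t (t v) + t (t v)) + (v + v) := by abel
        rw [e, add_self' W (t v), add_self' W (t (t v)), add_self' W v]; simp
      exact (eq_of_add W _ _ (h this)).symm
    have hst : W.ρ (QuaternionGroup.xa 0) (t w) = w + t w := by
      rw [ht, mul_apply']
      have : (QuaternionGroup.xa 0 * QuaternionGroup.a 1 : G) =
        QuaternionGroup.a 1 * QuaternionGroup.a 1 * QuaternionGroup.xa 0 * QuaternionGroup.a 3 := by decide
      rw [this, ← mul_apply', hz, ← mul_apply', hw, ← mul_apply', ← ht, hcyc]
    have hM1 : F2 (QuaternionGroup.a 1) = !![0, -1; 1, -1] := by decide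
    have hM2 : F2 (QuaternionGroup.xa 0) = !![1, -1; 0, -1] := by decide
    have hli : LinearIndependent (ZMod 2) ![w, t w] := by
      rw [LinearIndependent.pair_iff]
      have hZ : ∀ x : ZMod 2, x = 0 ∨ x = 1 := by decide
      intro x y hxy
      rcases hZ x with rfl | rfl <;> rcases hZ y with rfl | rfl
      · exact ⟨rfl, rfl⟩
      · exfalso
        rw [zero_smul, one_smul, zero_add] at hxy
        have := ht3 w
        rw [hxy, map_zero, map_zero] at this
        exact hw0 this.symm
      · exfalso
        rw [zero_smul, one_smul, add_zero] at hxy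
        exact hw0 hxy
      · exfalso
        rw [one_smul, one_smul] at hxy
        have : f w = f 0 := by rw [hf, map_zero, add_comm, hxy]
        exact hw0 (h this)
    have hspan : Submodule.span (ZMod 2) (Set.range ![w, t w]) = ⊤ := by
      have hr : Set.range ![w, t w] = {w, t w} := by
        simp [Matrix.range_cons, Set.pair_comm]
      have hmw : w ∈ Submodule.span (ZMod 2) (Set.range ![w, t w]) :=
        Submodule.subset_span (by rw [hr]; simp)
      have hmtw : t w ∈ Submodule.span (ZMod 2) (Set.range ![w, t w]) :=
        Submodule.subset_span (by rw [hr]; simp)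
      let A : Subrepresentation W.ρ := ⟨Submodule.span (ZMod 2) (Set.range ![w, t w]), by
        intro g
        refine gen (fun g => ∀ ⦃v : W.V⦄, v ∈ Submodule.span (ZMod 2) (Set.range ![w, t w]) →
          W.ρ g v ∈ Submodule.span (ZMod 2) (Set.range ![w, t w])) ?_ ?_ ?_ g
        · intro v hv
          induction hv using Submodule.span_induction with
          | mem x hx =>
            rw [hr] at hx
            rcases hx with rfl | rfl
            · exact hmtw
            · change t (t w) ∈ _
              rw [hcyc]; exact add_mem hmw hmtw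
          | zero => rw [map_zero]; exact zero_mem _
          | add x y _ _ hx hy => rw [map_add]; exact add_mem hx hy
          | smul a x _ hx => rw [map_smul]; exact Submodule.smul_mem _ _ hx
        · intro v hv
          induction hv using Submodule.span_induction with
          | mem x hx =>
            rw [hr] at hx
            rcases hx with rfl | rfl
            · rw [hw]; exact hmw
            · rw [hst]; exact add_mem hmw hmtw
          | zero => rw [map_zero]; exact zero_mem _
          | add x y _ _ hx hy => rw [map_add]; exact add_mem hx hy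
          | smul a x _ hx => rw [map_smul]; exact Submodule.smul_mem _ _ hx
        · intro g h hg hh v hv
          rw [← mul_apply']
          exact hg (hh hv)⟩
      rcases eq_bot_or_eq_top A with h | h
      · exfalso
        apply hw0
        have : Submodule.span (ZMod 2) (Set.range ![w, t w]) = ⊥ :=
          congrArg Subrepresentation.toSubmodule h
        rw [this] at hmw
        exact hmw
      · exact congrArg Subrepresentation.toSubmodule h
    let b : Module.Basis (Fin 2) (ZMod 2) W.V := Module.Basis.mk hli hspan.ge
    have hb0 : b 0 = w := by simp [b]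
    have hb1 : b 1 = t w := by simp [b]
    refine isReduction F2 W b fun g => ?_
    refine gen (fun g => ∀ j, W.ρ g (b j) = ∑ i, (F2 g i j : ZMod 2) • b i) ?_ ?_ ?_ g
    · intro j
      rw [hM1, Fin.sum_univ_two, hb0, hb1]
      fin_cases j
      · change t (b 0) = _
        rw [hb0]; simp
      · change t (b 1) = _
        rw [hb1, hcyc]; simp
    · intro j
      rw [hM2, Fin.sum_univ_two, hb0, hb1]
      fin_cases j
      · change W.ρ _ (b 0) = _
        rw [hb0, hw]; simp
      · change W.ρ _ (b 1) = _
        rw [hb1, hst]; simp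
    · intro g h hg hh j
      rw [← mul_apply', hh, map_sum]
      simp only [map_smul, hg, Finset.smul_sum, map_mul, Matrix.mul_apply]
      rw [Finset.sum_comm]
      refine Finset.sum_congr rfl fun i _ => ?_
      push_cast
      rw [Finset.sum_smul]
      refine Finset.sum_congr rfl fun k _ => ?_
      rw [smul_smul, mul_comm]

end simple

theorem conditionN : ConditionN G 2 := by
  intro P _
  refine cls_mem_closure _ ?_ _ P rfl
  intro S hS
  apply AddSubmonoid.subset_closure
  rcases classification S with h | h
  · exact ⟨VF F1, S, irr1, h, rfl⟩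
  · exact ⟨VF F2, S, irr2, h, rfl⟩

end Pool.Agent.Q109.SP
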